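import Pool.Agent.Helper50_DP.StmtsC

/-!
# Squad DP: module CLR

Text: `/team-store/PAPER_DP.md`, CLR.
-/

universe u v

open MvPolynomial PGH PGL

namespace Pool.Agent.DP.H46

/-- the ring of the coefficients of the lines -/
abbrev AA (N : ℕ) := MvPolynomial (Fin N × Fin 3) ℤ

/-- its field of fractions -/
abbrev KK (N : ℕ) := FractionRing (AA N)

/-- the generic lines -/
noncomputable def Lg (N : ℕ) (i : Fin N) (c : Fin 3) : KK N :=
  algebraMap (AA N) (KK N) (X (i, c))

theorem det3_hom {R S : Type*} [CommRing R] [CommRing S] (φ : R →+* S) (x y z : Fin 3 → R) :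
    φ (det3 x y z) = det3 (fun c => φ (x c)) (fun c => φ (y c)) (fun c => φ (z c)) := by
  simp [det3, Matrix.det_fin_three]

theorem genPos_Lg (N : ℕ) : GenPos (Lg N) := by
  intro i j l hij hli hlj h
  have hinj : Function.Injective (algebraMap (AA N) (KK N)) := IsFractionRing.injective _ _
  have h1 : det3 (fun c => (X (i, c) : AA N)) (fun c => X (j, c)) (fun c => X (l, c)) = 0 := by
    apply hinj
    rw [map_zero, det3_hom (algebraMap (AA N) (KK N))]
    exact h
  have h2 := congrArg (aeval (R := ℤ) (fun p : Fin N × Fin 3 =>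
    if p.1 = i then (if p.2 = 0 then (1 : ℤ) else 0) else if p.1 = j then
      (if p.2 = 1 then (1 : ℤ) else 0) else (if p.2 = 2 then (1 : ℤ) else 0))).toRingHom h1
  rw [map_zero, det3_hom] at h2
  simp [det3, Matrix.det_fin_three, hij.symm, hli, hlj] at h2

theorem evP_hom {N : ℕ} {R S : Type*} [CommRing R] [CommRing S] (φ : R →+* S)
    (a : Fin N → Fin 3 → R) (x : Fin 3 → Fin 3 → R) (P : Pol N) :
    φ (evP a x P) = evP (fun i c => φ (a i c)) (fun r c => φ (x r c)) P := by
  have h : φ.comp (evP a x).toRingHom =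
      (evP (fun i c => φ (a i c)) (fun r c => φ (x r c))).toRingHom := by
    apply MvPolynomial.ringHom_ext
    · intro n
      simp [evP]
    · rintro (p | p)
      · simp [evP, vals]
      · simp [evP, vals]
  exact congrArg (fun g : Pol N →+* S => g P) h

/-- clearing the denominators -/
theorem clear {σ A K : Type*} [CommRing A] [IsDomain A] [Field K] [Algebra A K]
    [IsFractionRing A K] (Q : MvPolynomial σ K) :
    ∃ (d : A) (P : MvPolynomial σ A), d ≠ 0 ∧ map (algebraMap A K) P = C (algebraMap A K d) * Q ∧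
      P.support ⊆ Q.support := by
  classical
  obtain ⟨b, hb⟩ := IsLocalization.exist_integer_multiples_of_finset (nonZeroDivisors A)
    (Q.support.image fun m => coeff m Q)
  have hinj : Function.Injective (algebraMap A K) := IsFractionRing.injective _ _
  have h1 : ∀ m ∈ Q.support, ∃ r : A, algebraMap A K r = algebraMap A K b * coeff m Q := by
    intro m hm
    obtain ⟨r, hr⟩ := hb _ (Finset.mem_image_of_mem _ hm)
    refine ⟨r, ?_⟩
    rw [hr, Algebra.smul_def]
  choose! r hr using h1
  have hmap : map (algebraMap A K) (∑ m ∈ Q.support, monomial m (r m)) =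
      C (algebraMap A K b) * Q := by
    rw [map_sum]
    conv_rhs => rw [Q.as_sum, Finset.mul_sum]
    apply Finset.sum_congr rfl
    intro m hm
    rw [map_monomial, C_mul_monomial, hr m hm]
  refine ⟨b, ∑ m ∈ Q.support, monomial m (r m), nonZeroDivisors.ne_zero b.2, hmap, ?_⟩
  intro m hm
  rw [mem_support_iff] at hm ⊢
  intro h0
  apply hm
  apply hinj
  rw [map_zero, ← coeff_map, hmap, coeff_C_mul, h0, mul_zero]

/-- divisibility by a power of a variable descends -/
theorem dvd_desc {σ A K : Type*} [CommRing A] [CommRing K] (φ : A →+* K)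
    (hφ : Function.Injective φ) (s : σ) (n : ℕ) (P : MvPolynomial σ A)
    (h : (X s : MvPolynomial σ K) ^ n ∣ map φ P) : X s ^ n ∣ P := by
  rw [X_pow_eq_monomial, monomial_one_dvd_iff_modMonomial_eq_zero] at h ⊢
  ext m
  by_cases hm : Finsupp.single s n ≤ m
  · rw [coeff_modMonomial_of_le _ hm, coeff_zero]
  · rw [coeff_modMonomial_of_not_le _ hm, coeff_zero]
    have h1 := congrArg (coeff m) h
    rw [coeff_modMonomial_of_not_le _ hm, coeff_zero, coeff_map] at h1
    exact hφ (by rw [h1, map_zero])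

/-- polynomials over the polynomials -/
noncomputable def it (N : ℕ) : MvPolynomial (Fin 3 × Fin 3) (AA N) →+* Pol N :=
  eval₂Hom (rename (Sum.inl : Fin N × Fin 3 → Sig N)).toRingHom (fun s => X (Sum.inr s))

/-- the specialisation -/
noncomputable def sp {N : ℕ} {τ R : Type*} [CommRing R] (a : Fin N → Fin 3 → R) (x : τ → R) :
    MvPolynomial τ (AA N) →+* R :=
  eval₂Hom (aeval (R := ℤ) (fun p : Fin N × Fin 3 => a p.1 p.2)).toRingHom x

theorem evP_it {N : ℕ} {R : Type*} [CommRing R] (a : Fin N → Fin 3 → R) (x : Fin 3 → Fin 3 → R)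
    (P : MvPolynomial (Fin 3 × Fin 3) (AA N)) :
    evP a x (it N P) = sp a (fun p => x p.1 p.2) P := by
  have h : (evP a x).toRingHom.comp (it N) = sp a (fun p => x p.1 p.2) := by
    apply MvPolynomial.ringHom_ext
    · intro q
      have h2 : ((evP a x).toRingHom.comp (rename (Sum.inl : Fin N × Fin 3 → Sig N)).toRingHom) =
          (aeval (R := ℤ) (fun p : Fin N × Fin 3 => a p.1 p.2)).toRingHom := by
        apply MvPolynomial.ringHom_ext
        · intro n
          simp [evP]
        · intro p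
          simp [evP, vals]
      have h3 := congrArg (fun g : AA N →+* R => g q) h2
      simpa [it, sp] using h3
    · intro p
      simp [it, sp, evP, vals]
  exact congrArg (fun g : MvPolynomial (Fin 3 × Fin 3) (AA N) →+* R => g P) h

/-- the value over an algebra over the field -/
theorem evP_K {N : ℕ} {R : Type*} [CommRing R] [Algebra (KK N) R] (x : Fin 3 → Fin 3 → R)
    (P : MvPolynomial (Fin 3 × Fin 3) (AA N)) :
    evP (fun i c => algebraMap (KK N) R (Lg N i c)) x (it N P) =
      aeval (fun p : Fin 3 × Fin 3 => x p.1 p.2) (map (algebraMap (AA N) (KK N)) P) := by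
  rw [evP_it, aeval_def, eval₂_map]
  have h : (aeval (R := ℤ) (fun p : Fin N × Fin 3 => algebraMap (KK N) R (Lg N p.1 p.2))).toRingHom
      = (algebraMap (KK N) R).comp (algebraMap (AA N) (KK N)) := by
    apply MvPolynomial.ringHom_ext
    · intro n
      simp
    · intro p
      simp [Lg]
  rw [sp, h]
  rfl

/-- the identity of homogeneity and weight -/
theorem inv_it {N : ℕ} (e m : ℕ) (Q : MvPolynomial (Fin 3 × Fin 3) (KK N)) (d : AA N)
    (P : MvPolynomial (Fin 3 × Fin 3) (AA N))
    (hP : map (algebraMap (AA N) (KK N)) P = C (algebraMap (AA N) (KK N) d) * Q)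
    (hQ : InvK e m Q) : Inv.{u} e m (it N P) := by
  have hinj : Function.Injective (algebraMap (AA N) (KK N)) := IsFractionRing.injective _ _
  intro R _ a x lam f s t w
  -- the universal ring
  set τ := (Fin 3 × Fin 3) ⊕ Fin 5 with hτ
  have key : evP (fun i c => (C (X (i, c)) : MvPolynomial τ (AA N)))
      (chg (X (Sum.inr 0)) (X (Sum.inr 1)) (X (Sum.inr 2)) (X (Sum.inr 3)) (X (Sum.inr 4))
        (fun r c => X (Sum.inl (r, c)))) (it N P) =
      X (Sum.inr 0) ^ e * X (Sum.inr 1) ^ m *
        evP (fun i c => (C (X (i, c)) : MvPolynomial τ (AA N))) (fun r c => X (Sum.inl (r, c)))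
          (it N P) := by
    apply map_injective (algebraMap (AA N) (KK N)) hinj
    have hC : (fun (i : Fin N) (c : Fin 3) => (map (algebraMap (AA N) (KK N)))
        (C (X (i, c)) : MvPolynomial τ (AA N))) =
        fun i c => algebraMap (KK N) (MvPolynomial τ (KK N)) (Lg N i c) := by
      funext i c
      rw [map_C]
      rfl
    rw [map_mul, map_mul, map_pow, map_pow, evP_hom, evP_hom, hC, evP_K, evP_K, hP, map_mul,
      map_mul, map_X, map_X]
    have h1 : (fun p : Fin 3 × Fin 3 => (map (algebraMap (AA N) (KK N)))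
        (chg (X (Sum.inr 0)) (X (Sum.inr 1)) (X (Sum.inr 2)) (X (Sum.inr 3)) (X (Sum.inr 4))
        (fun r c => (X (Sum.inl (r, c)) : MvPolynomial τ (AA N))) p.1 p.2)) =
        fun p : Fin 3 × Fin 3 => chg (X (Sum.inr 0)) (X (Sum.inr 1)) (X (Sum.inr 2))
          (X (Sum.inr 3)) (X (Sum.inr 4))
          (fun r c => (X (Sum.inl (r, c)) : MvPolynomial τ (KK N))) p.1 p.2 := by
      funext p
      obtain ⟨r, c⟩ := p
      fin_cases r <;> simp [chg]
    have h2 : (fun p : Fin 3 × Fin 3 => (map (algebraMap (AA N) (KK N)))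
        (X (Sum.inl (p.1, p.2)) : MvPolynomial τ (AA N))) =
        fun p : Fin 3 × Fin 3 => (X (Sum.inl (p.1, p.2)) : MvPolynomial τ (KK N)) := by
      funext p
      simp
    rw [h1, h2, hQ, aeval_C, aeval_C]
    ring
  have h3 := congrArg (sp a (Sum.elim (fun p : Fin 3 × Fin 3 => x p.1 p.2)
    ![lam, f, s, t, w])) key
  have hC : (fun (i : Fin N) (c : Fin 3) => (sp a (Sum.elim (fun p : Fin 3 × Fin 3 => x p.1 p.2)
      ![lam, f, s, t, w])) (C (X (i, c)) : MvPolynomial τ (AA N))) = a := by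
    funext i c
    simp [sp]
  rw [map_mul, map_mul, map_pow, map_pow, evP_hom, evP_hom, hC] at h3
  have h1 : (fun r c : Fin 3 => (sp a (Sum.elim (fun p : Fin 3 × Fin 3 => x p.1 p.2)
      ![lam, f, s, t, w]))
        (chg (X (Sum.inr 0)) (X (Sum.inr 1)) (X (Sum.inr 2)) (X (Sum.inr 3)) (X (Sum.inr 4))
        (fun r c => (X (Sum.inl (r, c)) : MvPolynomial τ (AA N))) r c)) =
        chg lam f s t w x := by
    funext r c
    fin_cases r <;> simp [chg, sp]
  have h2 : (fun r c : Fin 3 => (sp a (Sum.elim (fun p : Fin 3 × Fin 3 => x p.1 p.2)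
      ![lam, f, s, t, w])) (X (Sum.inl (r, c)) : MvPolynomial τ (AA N))) = x := by
    funext r c
    simp [sp]
  rw [h1, h2] at h3
  rw [h3]
  simp [sp]

/-- the vector product -/
def cr {R : Type*} [CommRing R] (x y : Fin 3 → R) : Fin 3 → R :=
  ![x 1 * y 2 - x 2 * y 1, x 2 * y 0 - x 0 * y 2, x 0 * y 1 - x 1 * y 0]

/-- the vector with given values of the three forms -/
def yy {R : Type*} [CommRing R] (a b l : Fin 3 → R) (p q r : R) : Fin 3 → R :=
  fun c => p * cr b l c + q * cr l a c + r * cr a b c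

theorem lf_yy_a {R : Type*} [CommRing R] (a b l : Fin 3 → R) (p q r : R) :
    lf a (yy a b l p q r) = det3 a b l * p := by
  simp only [lf, yy, cr, det3, Matrix.det_fin_three, Fin.sum_univ_three, Matrix.of_apply,
    Matrix.cons_val_zero, Matrix.cons_val_one, Matrix.cons_val]
  ring

theorem lf_yy_b {R : Type*} [CommRing R] (a b l : Fin 3 → R) (p q r : R) :
    lf b (yy a b l p q r) = det3 a b l * q := by
  simp only [lf, yy, cr, det3, Matrix.det_fin_three, Fin.sum_univ_three, Matrix.of_apply,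
    Matrix.cons_val_zero, Matrix.cons_val_one, Matrix.cons_val]
  ring

theorem yy_lf {R : Type*} [CommRing R] (a b l x : Fin 3 → R) :
    yy a b l (lf a x) (lf b x) (lf l x) = fun c => det3 a b l * x c := by
  funext c
  fin_cases c <;>
  simp [lf, yy, cr, det3, Matrix.det_fin_three, Fin.sum_univ_three] <;>
  ring

theorem yy_hom {R S : Type*} [CommRing R] [CommRing S] (φ : R →+* S) (a b l : Fin 3 → R)
    (p q r : R) (c : Fin 3) :
    φ (yy a b l p q r c) = yy (fun c => φ (a c)) (fun c => φ (b c)) (fun c => φ (l c)) (φ p) (φ q)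
      (φ r) c := by
  fin_cases c <;> simp [yy, cr]

/-- the jets with given values of the forms -/
def jj {R : Type*} [CommRing R] (a b l : Fin 3 → R) (g : Fin 3 × Fin 3 → R) :
    Fin 3 → Fin 3 → R :=
  ![yy a b l (g (0, 0)) (g (2, 0) * g (0, 0)) (g (1, 0)),
    yy a b l (g (0, 1)) (g (2, 1) * g (0, 0) + g (2, 0) * g (0, 1)) (g (1, 1)),
    yy a b l (g (0, 2)) (g (2, 2) * g (0, 0) + 2 * g (2, 1) * g (0, 1) + g (2, 0) * g (0, 2))
      (g (1, 2))]

theorem jj_hom {R S : Type*} [CommRing R] [CommRing S] (φ : R →+* S) (a b l : Fin 3 → R)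
    (g : Fin 3 × Fin 3 → R) (r c : Fin 3) :
    φ (jj a b l g r c) = jj (fun c => φ (a c)) (fun c => φ (b c)) (fun c => φ (l c))
      (fun s => φ (g s)) r c := by
  fin_cases r
  · simp [jj, yy_hom]
  · simp [jj, yy_hom]
  · simp only [jj, Matrix.cons_val, Fin.reduceFinMk]
    rw [yy_hom, map_add, map_add, map_mul, map_mul, map_mul, map_mul, map_ofNat]

/-- the order at the nodes -/
theorem nod_it {N : ℕ} (ν e m : ℕ) (Q : MvPolynomial (Fin 3 × Fin 3) (KK N)) (d : AA N)
    (P : MvPolynomial (Fin 3 × Fin 3) (AA N))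
    (hP : map (algebraMap (AA N) (KK N)) P = C (algebraMap (AA N) (KK N) d) * Q)
    (hQ : ∀ i j : Fin N, i < j → NodK (Lg N) i j ν Q) (hI : Inv.{u} e m (it N P)) :
    Nod.{u} ν (it N P) := by
  have hinj : Function.Injective (algebraMap (AA N) (KK N)) := IsFractionRing.injective _ _
  intro i j l hij hli hlj
  refine ⟨e, ?_⟩
  -- divisibility in the universal ring
  have key : (X (0, 0) : MvPolynomial (Fin 3 × Fin 3) (AA N)) ^ ν ∣
      evP (fun i c => (C (X (i, c)) : MvPolynomial (Fin 3 × Fin 3) (AA N)))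
        (jj (fun c => C (X (i, c))) (fun c => C (X (j, c))) (fun c => C (X (l, c))) X)
        (it N P) := by
    apply dvd_desc (algebraMap (AA N) (KK N)) hinj
    have hC : (fun (i : Fin N) (c : Fin 3) => (map (algebraMap (AA N) (KK N)))
        (C (X (i, c)) : MvPolynomial (Fin 3 × Fin 3) (AA N))) =
        fun i c => algebraMap (KK N) (MvPolynomial (Fin 3 × Fin 3) (KK N)) (Lg N i c) := by
      funext i c
      rw [map_C]
      rfl
    have hC' : ∀ i : Fin N, (fun (c : Fin 3) => (map (algebraMap (AA N) (KK N)))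
        (C (X (i, c)) : MvPolynomial (Fin 3 × Fin 3) (AA N))) =
        fun c => algebraMap (KK N) (MvPolynomial (Fin 3 × Fin 3) (KK N)) (Lg N i c) := fun i =>
      congrFun hC i
    rw [evP_hom, hC, evP_K, hP, map_mul]
    apply Dvd.dvd.mul_left
    have hX : (fun s : Fin 3 × Fin 3 => (map (algebraMap (AA N) (KK N)))
        (X s : MvPolynomial (Fin 3 × Fin 3) (AA N))) = X := by
      funext s
      rw [map_X]
    have h1 : (fun p : Fin 3 × Fin 3 => (map (algebraMap (AA N) (KK N)))
        (jj (fun c => C (X (i, c))) (fun c => C (X (j, c))) (fun c => C (X (l, c)))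
          (X : Fin 3 × Fin 3 → MvPolynomial (Fin 3 × Fin 3) (AA N)) p.1 p.2)) =
        fun p : Fin 3 × Fin 3 =>
          jj (fun c => algebraMap (KK N) (MvPolynomial (Fin 3 × Fin 3) (KK N)) (Lg N i c))
          (fun c => algebraMap (KK N) (MvPolynomial (Fin 3 × Fin 3) (KK N)) (Lg N j c))
          (fun c => algebraMap (KK N) (MvPolynomial (Fin 3 × Fin 3) (KK N)) (Lg N l c)) X
          p.1 p.2 := by
      funext p
      rw [jj_hom, hC', hC', hC', hX]
    rw [h1]
    set A' := fun c => algebraMap (KK N) (MvPolynomial (Fin 3 × Fin 3) (KK N)) (Lg N i c) with hA'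
    set B' := fun c => algebraMap (KK N) (MvPolynomial (Fin 3 × Fin 3) (KK N)) (Lg N j c) with hB'
    set L' := fun c => algebraMap (KK N) (MvPolynomial (Fin 3 × Fin 3) (KK N)) (Lg N l c) with hL'
    have hlA : ∀ x : Fin 3 → MvPolynomial (Fin 3 × Fin 3) (KK N), lin (Lg N i) x = lf A' x :=
      fun x => rfl
    have hlB : ∀ x : Fin 3 → MvPolynomial (Fin 3 × Fin 3) (KK N), lin (Lg N j) x = lf B' x :=
      fun x => rfl
    have h2 := hQ i j hij (MvPolynomial (Fin 3 × Fin 3) (KK N)) (jj A' B' L' X) (X (2, 0))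
      (X (2, 1)) (X (2, 2)) (by
        rw [hlA, hlB]
        simp only [jj, Matrix.cons_val_zero]
        rw [lf_yy_a, lf_yy_b]
        ring) (by
        rw [hlA, hlB, hlA]
        simp only [jj, Matrix.cons_val_zero, Matrix.cons_val_one]
        rw [lf_yy_a, lf_yy_b, lf_yy_a]
        ring) (by
        rw [hlA, hlB, hlA, hlA]
        simp only [jj, Matrix.cons_val_zero, Matrix.cons_val_one, Matrix.cons_val]
        rw [lf_yy_a, lf_yy_b, lf_yy_a, lf_yy_a]
        ring)
    have h3 : lin (Lg N i) (jj A' B' L' X 0) = det3 A' B' L' * X (0, 0) := by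
      rw [hlA]
      simp only [jj, Matrix.cons_val_zero]
      rw [lf_yy_a]
    rw [h3, mul_pow] at h2
    exact (Dvd.intro_left _ rfl).trans h2
  intro R _ a x η₀ η₁ η₂ h0 h1 h2
  have hinv := hI R a x (det3 (a i) (a j) (a l)) 1 0 0 0
  rw [one_pow, mul_one] at hinv
  have hj : chg (det3 (a i) (a j) (a l)) 1 0 0 0 x = jj (a i) (a j) (a l)
      (fun s => (![fun r => lf (a i) (x r), fun r => lf (a l) (x r), ![η₀, η₁, η₂]] :
        Fin 3 → Fin 3 → R) s.1 s.2) := by
    funext r
    fin_cases r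
    · simp only [chg, jj, Matrix.cons_val_zero, Matrix.cons_val_one, Matrix.cons_val, Fin.isValue,
        Fin.zero_eta]
      rw [← h0, yy_lf]
    · simp only [chg, jj, Matrix.cons_val_zero, Matrix.cons_val_one, Matrix.cons_val, Fin.isValue,
        Fin.mk_one]
      rw [← h1, yy_lf]
      funext c
      ring
    · simp only [chg, jj, Matrix.cons_val_zero, Matrix.cons_val_one, Matrix.cons_val, Fin.isValue,
        Fin.reduceFinMk]
      rw [← h2, yy_lf]
      funext c
      ring
  rw [← hinv, hj]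
  have h4 := map_dvd (sp a (fun s => (![fun r => lf (a i) (x r), fun r => lf (a l) (x r),
    ![η₀, η₁, η₂]] : Fin 3 → Fin 3 → R) s.1 s.2)) key
  rw [map_pow, evP_hom] at h4
  have hC : ∀ i' : Fin N, (fun (c : Fin 3) => (sp a (fun s => (![fun r => lf (a i) (x r),
      fun r => lf (a l) (x r), ![η₀, η₁, η₂]] : Fin 3 → Fin 3 → R) s.1 s.2))
        (C (X (i', c)) : MvPolynomial (Fin 3 × Fin 3) (AA N))) = a i' := by
    intro i'
    funext c
    simp [sp]
  have hX : (fun t => (sp a (fun s => (![fun r => lf (a i) (x r),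
      fun r => lf (a l) (x r), ![η₀, η₁, η₂]] : Fin 3 → Fin 3 → R) s.1 s.2))
        (X t : MvPolynomial (Fin 3 × Fin 3) (AA N))) = (fun s => (![fun r => lf (a i) (x r),
      fun r => lf (a l) (x r), ![η₀, η₁, η₂]] : Fin 3 → Fin 3 → R) s.1 s.2) := by
    funext t
    simp [sp]
  have h5 : (fun r c => (sp a (fun s => (![fun r => lf (a i) (x r),
      fun r => lf (a l) (x r), ![η₀, η₁, η₂]] : Fin 3 → Fin 3 → R) s.1 s.2))
        (jj (fun c => C (X (i, c))) (fun c => C (X (j, c))) (fun c => C (X (l, c)))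
          (X : Fin 3 × Fin 3 → MvPolynomial (Fin 3 × Fin 3) (AA N)) r c)) =
      jj (a i) (a j) (a l) (fun s => (![fun r => lf (a i) (x r), fun r => lf (a l) (x r),
        ![η₀, η₁, η₂]] : Fin 3 → Fin 3 → R) s.1 s.2) := by
    funext r c
    rw [jj_hom, hC, hC, hC, hX]
  have h6 : (sp a (fun s => (![fun r => lf (a i) (x r),
      fun r => lf (a l) (x r), ![η₀, η₁, η₂]] : Fin 3 → Fin 3 → R) s.1 s.2))
        (X (0, 0) : MvPolynomial (Fin 3 × Fin 3) (AA N)) = lf (a i) (x 0) := by
    simp [sp]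
  rw [h5, h6] at h4
  have h7 : (fun (i' : Fin N) (c : Fin 3) => (sp a (fun s => (![fun r => lf (a i) (x r),
      fun r => lf (a l) (x r), ![η₀, η₁, η₂]] : Fin 3 → Fin 3 → R) s.1 s.2))
        (C (X (i', c)) : MvPolynomial (Fin 3 × Fin 3) (AA N))) = a := by
    funext i'
    exact hC i'
  rw [h7] at h4
  exact h4

/-- the support -/
theorem supp_it {N : ℕ} (P : MvPolynomial (Fin 3 × Fin 3) (AA N)) (s : Sig N →₀ ℕ)
    (hs : s ∈ (it N P).support) : ∃ m ∈ P.support, ∀ p, s (Sum.inr p) = m p := by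
  classical
  rw [P.as_sum, map_sum] at hs
  obtain ⟨m, hm, hs⟩ := Finset.mem_biUnion.1 (support_sum hs)
  refine ⟨m, hm, fun p => ?_⟩
  have h1 : it N (monomial m (coeff m P)) =
      monomial (m.mapDomain Sum.inr) 1 * rename Sum.inl (coeff m P) := by
    rw [it, eval₂Hom_monomial, mul_comm, monomial_eq, map_one, one_mul, Finsupp.prod_mapDomain_index_inj
      Sum.inr_injective]
    rfl
  rw [h1] at hs
  obtain ⟨s₁, hs₁, s₂, hs₂, rfl⟩ := Finset.mem_add.1 (support_mul _ _ hs)
  have h2 : s₁ = m.mapDomain Sum.inr := by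
    have := support_monomial_subset hs₁
    simpa using this
  have h3 := support_rename_of_injective (p := coeff m P)
    (Sum.inl_injective : Function.Injective (Sum.inl : Fin N × Fin 3 → Sig N))
  rw [h3] at hs₂
  obtain ⟨s₃, -, rfl⟩ := Finset.mem_image.1 hs₂
  rw [h2, Finsupp.add_apply, Finsupp.mapDomain_apply Sum.inr_injective,
    Finsupp.mapDomain_of_notMem_range _ _ (by simp), add_zero]

/-- CLR: clearing the denominators -/
theorem clr : ClrStmt.{u} := by
  rintro ⟨N₁, h⟩
  refine ⟨N₁, fun N hN => ?_⟩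
  obtain ⟨Q, hQ0, hQi, hQn, hQs⟩ := h N hN (KK N) (Lg N) (genPos_Lg N)
  obtain ⟨d, P, hd, hP, hs⟩ := clear (A := AA N) Q
  have hinj : Function.Injective (algebraMap (AA N) (KK N)) := IsFractionRing.injective _ _
  have hI := inv_it.{u} _ _ Q d P hP hQi
  refine ⟨it N P, ?_, ⟨hI, nod_it _ _ _ Q d P hP hQn hI⟩, ?_⟩
  · intro h0
    have h1 := evP_K (R := MvPolynomial (Fin 3 × Fin 3) (KK N)) (fun r c => X (r, c)) P
    rw [h0, map_zero, hP, map_mul, aeval_C] at h1
    have h2 : aeval (fun p : Fin 3 × Fin 3 => (X (p.1, p.2) : MvPolynomial (Fin 3 × Fin 3) (KK N)))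
        Q = Q := by
      exact aeval_X_left_apply Q
    rw [h2] at h1
    rcases mul_eq_zero.1 h1.symm with h3 | h3
    · rw [algebraMap_eq, C_eq_zero] at h3
      exact hd (hinj (by rw [h3, map_zero]))
    · exact hQ0 h3
  · intro s hs'
    obtain ⟨m, hm, hms⟩ := supp_it P s hs'
    simp only [hms]
    exact hQs m (hs hm)

end Pool.Agent.DP.H46
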